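import Mathlib
import Pool.Agent.V1125.WordLen

/-!
# The 5-dimensional integer Heisenberg group is distorted in every unitriangular group
-/

set_option autoImplicit false

namespace Pool.Agent.Results.MP_34ced1_al.Heisenberg

open Pool.Agent.V1125

/-! ## The statement -/

/-- `UT_n(ℤ)`: the group of upper triangular integer matrices with ones on the diagonal, as a
subgroup of the group of invertible matrices. -/
def UT (n : ℕ) : Subgroup (Matrix (Fin n) (Fin n) ℤ)ˣ where
  carrier := {M | (∀ i, (M : Matrix (Fin n) (Fin n) ℤ) i i = 1) ∧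
    ∀ i j, j < i → (M : Matrix (Fin n) (Fin n) ℤ) i j = 0}
  one_mem' := by
    refine ⟨fun i => by simp, fun i j h => ?_⟩
    rw [Units.val_one, Matrix.one_apply_ne h.ne']
  mul_mem' := by
    rintro M N ⟨hM1, hM2⟩ ⟨hN1, hN2⟩
    constructor
    · intro i
      rw [Units.val_mul, Matrix.mul_apply, Finset.sum_eq_single i]
      · rw [hM1, hN1, one_mul]
      · intro k _ hk
        rcases lt_or_gt_of_ne hk with h | h
        · rw [hM2 i k h, zero_mul]
        · rw [hN2 k i h, mul_zero]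
      · simp
    · intro i j hij
      rw [Units.val_mul, Matrix.mul_apply]
      refine Finset.sum_eq_zero fun k _ => ?_
      rcases lt_or_ge k i with h | h
      · rw [hM2 i k h, zero_mul]
      · rw [hN2 k j (hij.trans_le h), mul_zero]
  inv_mem' := by
    rintro M ⟨hM1, hM2⟩
    have htri : ∀ i j, j < i → (M⁻¹ : (Matrix (Fin n) (Fin n) ℤ)ˣ).val i j = 0 := by
      have h1 : (M : Matrix (Fin n) (Fin n) ℤ).BlockTriangular id := fun i j h => hM2 i j h
      let _ : Invertible (M : Matrix (Fin n) (Fin n) ℤ) := M.invertible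
      have h2 := Matrix.blockTriangular_inv_of_blockTriangular h1
      intro i j h
      rw [Matrix.coe_units_inv]
      exact h2 h
    refine ⟨fun i => ?_, htri⟩
    have h1 : (M * M⁻¹ : (Matrix (Fin n) (Fin n) ℤ)ˣ).val i i = 1 := by simp
    rw [Units.val_mul, Matrix.mul_apply, Finset.sum_eq_single i] at h1
    · rwa [hM1, one_mul] at h1
    · intro k _ hk
      rcases lt_or_gt_of_ne hk with h | h
      · rw [hM2 i k h, zero_mul]
      · rw [htri k i h, mul_zero]
    · simp

/-- A subgroup `H` of `K` is undistorted, for some choice of finite generating sets `S` of `H` and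
`T` of `K` (the notion does not depend on the choice). -/
def IsUndistorted {K : Type} [Group K] (H : Subgroup K) : Prop :=
  ∃ S T : Set K, S.Finite ∧ T.Finite ∧ Subgroup.closure S = H ∧ Subgroup.closure T = ⊤ ∧
    ∃ C : ℝ, 1 ≤ C ∧ ∀ h ∈ H, (wordLen S h : ℝ) ≤ C * (wordLen T h : ℝ) + C

/-! ## Elementary matrices -/

section Elementary

variable {n : ℕ}

/-- The entry of an element of `UT n`. -/
def ent (u : UT n) (i j : Fin n) : ℤ := (u : (Matrix (Fin n) (Fin n) ℤ)ˣ).val i j

theorem ent_diag (u : UT n) (i : Fin n) : ent u i i = 1 := u.2.1 i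

theorem ent_low (u : UT n) {i j : Fin n} (h : j < i) : ent u i j = 0 := u.2.2 i j h

theorem ent_mul (u v : UT n) (i j : Fin n) : ent (u * v) i j = ∑ k, ent u i k * ent v k j := by
  unfold ent
  rw [Subgroup.coe_mul, Units.val_mul, Matrix.mul_apply]

theorem ent_one (i j : Fin n) : ent (1 : UT n) i j = if i = j then 1 else 0 := by
  unfold ent
  rw [Subgroup.coe_one, Units.val_one, Matrix.one_apply]

theorem ut_ext {u v : UT n} (h : ∀ i j, i < j → ent u i j = ent v i j) : u = v := by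
  apply Subtype.ext
  apply Units.ext
  ext i j
  rcases lt_trichotomy i j with h1 | h1 | h1
  · exact h i j h1
  · subst h1
    exact (ent_diag u i).trans (ent_diag v i).symm
  · exact (ent_low u h1).trans (ent_low v h1).symm

/-- The elementary matrix `E_ij(m)`, for `i < j`. -/
def E (i j : Fin n) (hij : i < j) (m : ℤ) : UT n :=
  ⟨⟨Matrix.transvection i j m, Matrix.transvection i j (-m),
    by rw [Matrix.transvection_mul_transvection_same _ _ hij.ne, add_neg_cancel,
      Matrix.transvection_zero],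
    by rw [Matrix.transvection_mul_transvection_same _ _ hij.ne, neg_add_cancel,
      Matrix.transvection_zero]⟩, by
    constructor
    · intro k
      show Matrix.transvection i j m k k = 1
      rw [Matrix.transvection, Matrix.add_apply, Matrix.one_apply_eq, Matrix.single_apply,
        if_neg, add_zero]
      rintro ⟨rfl, rfl⟩
      exact lt_irrefl _ hij
    · intro k l hkl
      show Matrix.transvection i j m k l = 0
      rw [Matrix.transvection, Matrix.add_apply, Matrix.one_apply_ne hkl.ne',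
        Matrix.single_apply, if_neg, add_zero]
      rintro ⟨rfl, rfl⟩
      exact lt_asymm hij hkl⟩

theorem ent_E (i j : Fin n) (hij : i < j) (m : ℤ) (k l : Fin n) :
    ent (E i j hij m) k l = (if k = l then 1 else 0) + if i = k ∧ j = l then m else 0 := by
  show Matrix.transvection i j m k l = _
  rw [Matrix.transvection, Matrix.add_apply, Matrix.one_apply, Matrix.single_apply]

theorem ent_mul_E (u : UT n) (i j : Fin n) (hij : i < j) (m : ℤ) (k l : Fin n) :
    ent (u * E i j hij m) k l = ent u k l + if j = l then ent u k i * m else 0 := by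
  rw [ent_mul]
  simp only [ent_E, mul_add, Finset.sum_add_distrib, mul_ite, mul_one, mul_zero]
  congr 1
  · simp
  · by_cases h : j = l
    · simp [h]
    · simp [h]

theorem E_add (i j : Fin n) (hij : i < j) (a b : ℤ) :
    E i j hij (a + b) = E i j hij a * E i j hij b := by
  apply Subtype.ext
  apply Units.ext
  show Matrix.transvection i j (a + b) = Matrix.transvection i j a * Matrix.transvection i j b
  rw [Matrix.transvection_mul_transvection_same _ _ hij.ne]

theorem E_zero (i j : Fin n) (hij : i < j) : E i j hij 0 = 1 := by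
  apply Subtype.ext
  apply Units.ext
  show Matrix.transvection i j 0 = 1
  rw [Matrix.transvection_zero]

theorem E_neg (i j : Fin n) (hij : i < j) (a : ℤ) : E i j hij (-a) = (E i j hij a)⁻¹ := by
  rw [eq_inv_iff_mul_eq_one, ← E_add, neg_add_cancel, E_zero]

theorem E_natCast (i j : Fin n) (hij : i < j) (a : ℕ) : E i j hij (a : ℤ) = E i j hij 1 ^ a := by
  induction a with
  | zero => simp [E_zero]
  | succ a ih => rw [Nat.cast_succ, E_add, ih, pow_succ]

theorem E_int (i j : Fin n) (hij : i < j) (a : ℤ) : E i j hij a = E i j hij 1 ^ a := by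
  obtain ⟨k, rfl | rfl⟩ := a.eq_nat_or_neg
  · rw [E_natCast, zpow_natCast]
  · rw [E_neg, E_natCast, zpow_neg, zpow_natCast]

/-- The commutator formula. -/
theorem E_comm (i k j : Fin n) (hik : i < k) (hkj : k < j) (a b : ℤ) :
    E i j (hik.trans hkj) (a * b) =
      E i k hik a * E k j hkj b * (E i k hik a)⁻¹ * (E k j hkj b)⁻¹ := by
  have hij := hik.trans hkj
  rw [eq_mul_inv_iff_mul_eq, eq_mul_inv_iff_mul_eq]
  apply ut_ext
  intro p q hpq
  simp only [ent_mul_E, ent_E]
  have e1 : i ≠ k := hik.ne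
  have e2 : k ≠ j := hkj.ne
  have e3 : i ≠ j := hij.ne
  by_cases h1 : p = q
  · exact absurd h1 hpq.ne
  · by_cases h2 : i = p
    · subst h2
      by_cases h3 : j = q
      · subst h3
        simp [e1, e2, e3, e2.symm]
      · by_cases h4 : k = q
        · subst h4
          simp [e1, e2.symm, e3.symm]
        · simp [h1, h3, h4]
    · by_cases h3 : j = q
      · subst h3
        by_cases h4 : k = p
        · subst h4
          simp [e1, e2, e2.symm]
        · simp [h1, h2, e2, Ne.symm h4]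
      · by_cases h4 : k = q
        · subst h4
          simp [h1, h2, h3]
          intro h5
          exact absurd h5.symm h2
        · simp [h1, h2, h3, h4]

/-! ## Upper bounds for word lengths in `UT n` -/

theorem len_E_one {T : Set (UT n)} : ∃ C : ℕ, ∀ (i j : Fin n) (hij : i < j),
    wordLen T (E i j hij 1) ≤ C := by
  classical
  refine ⟨∑ i, ∑ j, if h : i < j then wordLen T (E i j h 1) else 0, fun i j hij => ?_⟩
  have h1 : wordLen T (E i j hij 1) ≤ ∑ j, if h : i < j then wordLen T (E i j h 1) else 0 := by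
    have := Finset.single_le_sum (f := fun j => if h : i < j then wordLen T (E i j h 1) else 0)
      (fun _ _ => Nat.zero_le _) (Finset.mem_univ j)
    simpa [hij] using this
  refine h1.trans ?_
  exact Finset.single_le_sum
    (f := fun i => ∑ j, if h : i < j then wordLen T (E i j h 1) else 0)
    (fun _ _ => Nat.zero_le _) (Finset.mem_univ i)

theorem len_E_small {T : Set (UT n)} (hT : Subgroup.closure T = ⊤) {C : ℕ}
    (hC : ∀ (i j : Fin n) (hij : i < j), wordLen T (E i j hij 1) ≤ C) (i j : Fin n) (hij : i < j)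
    (q : ℕ) (m : ℤ) (hm : |m| ≤ (q : ℤ)) : wordLen T (E i j hij m) ≤ C * q := by
  rw [E_int]
  have h1 := wordLen_zpow_le (S := T) (g := E i j hij 1) (by rw [hT]; trivial) m
  have h2 : m.natAbs ≤ q := by
    have : ((m.natAbs : ℕ) : ℤ) ≤ q := by rwa [Int.natCast_natAbs]
    exact_mod_cast this
  calc _ ≤ m.natAbs * wordLen T (E i j hij 1) := h1
    _ ≤ q * C := Nat.mul_le_mul h2 (hC i j hij)
    _ = C * q := mul_comm _ _

theorem len_E {T : Set (UT n)} (hT : Subgroup.closure T = ⊤) (d : ℕ) :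
    ∃ C : ℕ, ∀ (i j : Fin n) (hij : i < j), (j : ℕ) = i + (d + 1) → ∀ q : ℕ, 1 ≤ q → ∀ m : ℤ,
      |m| ≤ (q : ℤ) ^ (d + 1) → wordLen T (E i j hij m) ≤ C * q := by
  obtain ⟨C0, hC0⟩ := len_E_one (T := T)
  induction d with
  | zero =>
    refine ⟨C0, fun i j hij _ q _ m hm => len_E_small hT hC0 i j hij q m (by simpa using hm)⟩
  | succ d ih =>
    obtain ⟨C, hC⟩ := ih
    refine ⟨4 * C0 + 4 * C, fun i j hij hd q hq m hm => ?_⟩
    let l : Fin n := ⟨i + 1, by omega⟩
    have hil : i < l := by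
      rw [Fin.lt_def]
      show (i : ℕ) < i + 1
      omega
    have hlj : l < j := by
      rw [Fin.lt_def]
      show (i : ℕ) + 1 < j
      omega
    have hlj' : (j : ℕ) = l + (d + 1) := by
      show (j : ℕ) = (i + 1) + (d + 1)
      omega
    have hq0 : (0 : ℤ) < (q : ℤ) ^ (d + 1) := by positivity
    set Q : ℤ := (q : ℤ) ^ (d + 1) with hQ
    have hb0 := Int.emod_nonneg m hq0.ne'
    have hb1 := Int.emod_lt_of_pos m hq0
    have hab := Int.mul_ediv_add_emod m Q
    have hm' : |m| ≤ q * Q := by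
      rw [hQ, ← pow_succ']
      exact hm
    obtain ⟨hm1, hm2⟩ := abs_le.1 hm'
    have ha : |m / Q| ≤ (q : ℤ) := by
      rw [abs_le]
      constructor
      · rw [Int.le_ediv_iff_mul_le hq0]
        nlinarith
      · have : m / Q < q + 1 := by
          rw [Int.ediv_lt_iff_lt_mul hq0]
          nlinarith
        omega
    have hb : |m % Q| ≤ Q := by
      rw [abs_le]
      constructor <;> omega
    have hdec : E i j hij m = E i j (hil.trans hlj) (m / Q * Q) *
        E i j (hil.trans hlj) (1 * (m % Q)) := by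
      rw [← E_add]
      congr 1
      rw [one_mul, mul_comm]
      exact hab.symm
    have hcl : ∀ g : UT n, g ∈ Subgroup.closure T := fun g => by rw [hT]; trivial
    rw [hdec, E_comm i l j hil hlj, E_comm i l j hil hlj]
    refine (wordLen_mul_le (hcl _) (hcl _)).trans ?_
    have c1 := wordLen_comm_le (hcl (E i l hil (m / Q))) (hcl (E l j hlj Q))
    have c2 := wordLen_comm_le (hcl (E i l hil 1)) (hcl (E l j hlj (m % Q)))
    have b1 := len_E_small hT hC0 i l hil q (m / Q) ha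
    have b2 := hC l j hlj hlj' q hq Q (by rw [abs_of_pos hq0])
    have b3 := len_E_small hT hC0 i l hil q 1 (by simpa using hq)
    have b4 := hC l j hlj hlj' q hq (m % Q) hb
    nlinarith

theorem len_aux {T : Set (UT n)} (hT : Subgroup.closure T = ⊤) {C q : ℕ}
    (hC : ∀ (i j : Fin n) (hij : i < j) (m : ℤ), |m| ≤ (q : ℤ) ^ ((j : ℕ) - i) →
      wordLen T (E i j hij m) ≤ C * q) (F : Finset (Fin n × Fin n)) :
    ∀ u : UT n, (∀ i j, i < j → (i, j) ∉ F → ent u i j = 0) →
      (∀ i j, i < j → |ent u i j| ≤ (q : ℤ) ^ ((j : ℕ) - i)) →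
      wordLen T u ≤ F.card * (C * q) := by
  classical
  refine Finset.induction_on_min_value (fun p : Fin n × Fin n => p.1) F ?_ ?_
  · intro u hu _
    have : u = 1 := by
      apply ut_ext
      intro i j hij
      rw [hu i j hij (by simp), ent_one, if_neg hij.ne]
    rw [this, wordLen_one]
    exact Nat.zero_le _
  · rintro ⟨i, j⟩ s hs hmin ih u hu hu'
    rw [Finset.card_insert_of_notMem hs]
    by_cases hij : i < j
    · set m := ent u i j with hm
      have hent : ∀ k l, k < l → ent (u * E i j hij (-m)) k l =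
          if k = i ∧ l = j then 0 else ent u k l := by
        intro k l hkl
        rw [ent_mul_E]
        by_cases hl : j = l
        · subst hl
          rw [if_pos rfl]
          rcases lt_trichotomy k i with h | h | h
          · have h0 : ent u k i = 0 := by
              refine hu k i h ?_
              rw [Finset.mem_insert, not_or]
              constructor
              · intro he
                exact h.ne (Prod.mk.inj he).1
              · intro he
                exact absurd (hmin _ he) (not_le.2 h)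
            rw [h0, zero_mul, add_zero, if_neg]
            rintro ⟨h1, -⟩
            exact h.ne h1
          · subst h
            rw [if_pos ⟨rfl, rfl⟩, ent_diag, ← hm]
            ring
          · rw [ent_low u h, zero_mul, add_zero, if_neg]
            rintro ⟨h1, -⟩
            exact h.ne' h1
        · rw [if_neg hl, add_zero, if_neg]
          rintro ⟨-, h1⟩
          exact hl h1.symm
      have hdec : u = (u * E i j hij (-m)) * E i j hij m := by
        rw [mul_assoc, ← E_add, neg_add_cancel, E_zero, mul_one]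
      have h1 := ih (u * E i j hij (-m)) (by
        intro k l hkl hnot
        rw [hent k l hkl]
        split_ifs with h
        · rfl
        · refine hu k l hkl ?_
          rw [Finset.mem_insert, not_or]
          refine ⟨fun he => h ?_, hnot⟩
          exact Prod.mk.inj he) (by
        intro k l hkl
        rw [hent k l hkl]
        split_ifs with h
        · rw [abs_zero]
          positivity
        · exact hu' k l hkl)
      have hcl : ∀ g : UT n, g ∈ Subgroup.closure T := fun g => by rw [hT]; trivial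
      have h2 := hC i j hij m (hu' i j hij)
      calc wordLen T u ≤ wordLen T (u * E i j hij (-m)) + wordLen T (E i j hij m) := by
            conv_lhs => rw [hdec]
            exact wordLen_mul_le (hcl _) (hcl _)
        _ ≤ s.card * (C * q) + C * q := Nat.add_le_add h1 h2
        _ = (s.card + 1) * (C * q) := by ring
    · refine (ih u ?_ hu').trans (Nat.mul_le_mul_right _ (Nat.le_succ _))
      intro k l hkl hnot
      refine hu k l hkl ?_
      rw [Finset.mem_insert, not_or]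
      refine ⟨fun he => hij ?_, hnot⟩
      obtain ⟨h1, h2⟩ := Prod.mk.inj he
      rw [← h1, ← h2]
      exact hkl

theorem len_le_of_ent {T : Set (UT n)} (hT : Subgroup.closure T = ⊤) :
    ∃ C : ℕ, ∀ q : ℕ, 1 ≤ q → ∀ u : UT n,
      (∀ i j, i < j → |ent u i j| ≤ (q : ℤ) ^ ((j : ℕ) - i)) → wordLen T u ≤ C * q := by
  choose C hC using fun d => len_E (n := n) hT d
  refine ⟨(Finset.univ : Finset (Fin n × Fin n)).card * ∑ d ∈ Finset.range n, C d,
    fun q hq u hu => ?_⟩
  rw [mul_assoc]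
  refine len_aux hT ?_ Finset.univ u (fun i j _ h => absurd (Finset.mem_univ _) h) hu
  intro i j hij m hm
  have hlt : (i : ℕ) < j := hij
  have h1 := hC ((j : ℕ) - i - 1) i j hij (by omega) q hq m (by
    rwa [show (j : ℕ) - i - 1 + 1 = (j : ℕ) - i by omega])
  refine h1.trans (Nat.mul_le_mul_right q ?_)
  exact Finset.single_le_sum (f := C) (fun _ _ => Nat.zero_le _)
    (Finset.mem_range.2 (by have := j.2; omega))

/-- Powers of a matrix whose first two superdiagonals vanish grow slowly. -/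
theorem ent_pow (u : UT n) (hu : ∀ i j : Fin n, i < j → (j : ℕ) < i + 3 → ent u i j = 0) (B : ℕ)
    (hB : ∀ i j, |ent u i j| ≤ (B : ℤ)) (q : ℕ) (hq : 1 ≤ q) (k : ℕ) (i j : Fin n) :
    (|ent (u ^ k) i j| : ℝ) * (q : ℝ) ^ (i : ℕ) ≤
      (q : ℝ) ^ (j : ℕ) * (1 + (n : ℝ) * B / (q : ℝ) ^ 3) ^ k := by
  have hq1 : (1 : ℝ) ≤ q := by exact_mod_cast hq
  have hq0 : (0 : ℝ) < q := by linarith
  induction k generalizing i j with
  | zero =>
    rw [pow_zero, ent_one, pow_zero, mul_one]
    split_ifs with h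
    · subst h
      simp
    · simp
  | succ k ih =>
    set c : ℝ := (1 + (n : ℝ) * B / (q : ℝ) ^ 3) ^ k with hc
    have hc0 : 0 ≤ c := by positivity
    rw [pow_succ, ent_mul]
    have hterm : ∀ l : Fin n, |(ent (u ^ k) i l : ℝ) * (ent u l j : ℝ)| * (q : ℝ) ^ (i : ℕ) ≤
        (if l = j then (q : ℝ) ^ (j : ℕ) * c else 0) + (q : ℝ) ^ (j : ℕ) * c * (B / (q : ℝ) ^ 3) := by
      intro l
      have hpos : 0 ≤ (q : ℝ) ^ (j : ℕ) * c * (B / (q : ℝ) ^ 3) := by positivity
      by_cases hlj : l = j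
      · subst hlj
        rw [if_pos rfl, ent_diag, Int.cast_one, mul_one]
        have := ih i l
        linarith
      · rw [if_neg hlj, zero_add]
        rcases lt_or_gt_of_ne hlj with h | h
        · rcases Nat.lt_or_ge (j : ℕ) (l + 3) with h3 | h3
          · rw [hu l j h h3, Int.cast_zero, mul_zero, abs_zero, zero_mul]
            exact hpos
          · have h4 := ih i l
            have h5 : (|(ent u l j : ℝ)|) ≤ B := by
              have := hB l j
              have h6 : ((|ent u l j| : ℤ) : ℝ) ≤ ((B : ℤ) : ℝ) := Int.cast_le.2 this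
              rwa [Int.cast_abs, Int.cast_natCast] at h6
            have h6 : (q : ℝ) ^ (l : ℕ) * (q : ℝ) ^ 3 ≤ (q : ℝ) ^ (j : ℕ) := by
              rw [← pow_add]
              exact pow_le_pow_right₀ hq1 h3
            rw [abs_mul]
            calc |(ent (u ^ k) i l : ℝ)| * |(ent u l j : ℝ)| * (q : ℝ) ^ (i : ℕ)
                = (|(ent (u ^ k) i l : ℝ)| * (q : ℝ) ^ (i : ℕ)) * |(ent u l j : ℝ)| := by ring
              _ ≤ ((q : ℝ) ^ (l : ℕ) * c) * B := by
                  refine mul_le_mul h4 h5 (abs_nonneg _) (by positivity)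
              _ = ((q : ℝ) ^ (l : ℕ) * (q : ℝ) ^ 3) * (c * (B / (q : ℝ) ^ 3)) := by
                  field_simp
              _ ≤ (q : ℝ) ^ (j : ℕ) * (c * (B / (q : ℝ) ^ 3)) :=
                  mul_le_mul_of_nonneg_right h6 (by positivity)
              _ = _ := by ring
        · rw [ent_low u h, Int.cast_zero, mul_zero, abs_zero, zero_mul]
          exact hpos
    have hsum : |((∑ l, ent (u ^ k) i l * ent u l j : ℤ) : ℝ)| * (q : ℝ) ^ (i : ℕ) ≤
        ∑ l : Fin n, |(ent (u ^ k) i l : ℝ) * (ent u l j : ℝ)| * (q : ℝ) ^ (i : ℕ) := by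
      rw [← Finset.sum_mul]
      refine mul_le_mul_of_nonneg_right ?_ (by positivity)
      push_cast
      exact Finset.abs_sum_le_sum_abs _ _
    refine hsum.trans ((Finset.sum_le_sum fun l _ => hterm l).trans (le_of_eq ?_))
    rw [Finset.sum_add_distrib, Finset.sum_ite_eq' Finset.univ j, if_pos (Finset.mem_univ j),
      Finset.sum_const, Finset.card_univ, Fintype.card_fin, nsmul_eq_mul,
      pow_succ (1 + (n : ℝ) * B / (q : ℝ) ^ 3) k, ← hc]
    ring

theorem exists_upper {T : Set (UT n)} (hT : Subgroup.closure T = ⊤) (u : UT n)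
    (hu : ∀ i j : Fin n, i < j → (j : ℕ) < i + 3 → ent u i j = 0) :
    ∃ C : ℕ, ∀ q : ℕ, 1 ≤ q → wordLen T (u ^ (q ^ 3)) ≤ C * q := by
  obtain ⟨C, hC⟩ := len_le_of_ent (n := n) hT
  obtain ⟨B, hB⟩ : ∃ B : ℕ, ∀ i j, |ent u i j| ≤ (B : ℤ) := by
    refine ⟨∑ i, ∑ j, (ent u i j).natAbs, fun i j => ?_⟩
    rw [← Int.natCast_natAbs]
    have h1 : (ent u i j).natAbs ≤ ∑ j, (ent u i j).natAbs :=
      Finset.single_le_sum (f := fun j => (ent u i j).natAbs) (fun _ _ => Nat.zero_le _)
        (Finset.mem_univ j)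
    have h2 : ∑ j, (ent u i j).natAbs ≤ ∑ i, ∑ j, (ent u i j).natAbs :=
      Finset.single_le_sum (f := fun i => ∑ j, (ent u i j).natAbs) (fun _ _ => Nat.zero_le _)
        (Finset.mem_univ i)
    exact_mod_cast h1.trans h2
  obtain ⟨A, hA⟩ := exists_nat_ge (Real.exp ((n : ℝ) * B))
  have hA1 : 1 ≤ A := by
    have h1 : (1 : ℝ) ≤ Real.exp ((n : ℝ) * B) := Real.one_le_exp (by positivity)
    exact_mod_cast h1.trans hA
  refine ⟨C * A, fun q hq => ?_⟩
  rw [mul_assoc]
  refine hC (A * q) (Nat.mul_pos hA1 hq) _ fun i j hij => ?_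
  have hlt : (i : ℕ) < j := hij
  have hq0 : (0 : ℝ) < q := by exact_mod_cast hq
  have h1 := ent_pow u hu B hB q hq (q ^ 3) i j
  have h2 : (1 + (n : ℝ) * B / (q : ℝ) ^ 3) ^ (q ^ 3) ≤ A := by
    refine le_trans ?_ hA
    have h3 : 1 + (n : ℝ) * B / (q : ℝ) ^ 3 ≤ Real.exp ((n : ℝ) * B / (q : ℝ) ^ 3) := by
      have := Real.add_one_le_exp ((n : ℝ) * B / (q : ℝ) ^ 3)
      linarith
    refine (pow_le_pow_left₀ (by positivity) h3 _).trans (le_of_eq ?_)
    rw [← Real.exp_nat_mul]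
    congr 1
    push_cast
    field_simp
  have h3 : (|ent (u ^ (q ^ 3)) i j| : ℝ) * (q : ℝ) ^ (i : ℕ) ≤
      (A * (q : ℝ) ^ ((j : ℕ) - i)) * (q : ℝ) ^ (i : ℕ) := by
    refine h1.trans ?_
    have h4 : (q : ℝ) ^ (j : ℕ) = (q : ℝ) ^ ((j : ℕ) - i) * (q : ℝ) ^ (i : ℕ) := by
      rw [← pow_add]
      congr 1
      omega
    rw [h4]
    have h5 : 0 ≤ (q : ℝ) ^ ((j : ℕ) - i) * (q : ℝ) ^ (i : ℕ) := by positivity
    nlinarith [mul_le_mul_of_nonneg_left h2 h5]
  have h4 : (|ent (u ^ (q ^ 3)) i j| : ℝ) ≤ A * (q : ℝ) ^ ((j : ℕ) - i) :=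
    le_of_mul_le_mul_right h3 (by positivity)
  have h5 : |ent (u ^ (q ^ 3)) i j| ≤ (A : ℤ) * (q : ℤ) ^ ((j : ℕ) - i) := by
    exact_mod_cast h4
  refine h5.trans ?_
  push_cast
  rw [mul_pow]
  refine mul_le_mul_of_nonneg_right ?_ (by positivity)
  have : (A : ℤ) ^ 1 ≤ (A : ℤ) ^ ((j : ℕ) - i) :=
    pow_le_pow_right₀ (by exact_mod_cast hA1) (by omega)
  simpa using this

end Elementary

/-! ## The first superdiagonals of a commutator -/

section Comm

variable {n : ℕ}

theorem sum_two (f : Fin n → ℤ) (i j : Fin n) (hij : (j : ℕ) = i + 1) (h1 : ∀ l, l < i → f l = 0)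
    (h2 : ∀ l, j < l → f l = 0) : ∑ l, f l = f i + f j := by
  have hne : i ≠ j := by
    intro h
    rw [h] at hij
    omega
  rw [← Finset.sum_subset (Finset.subset_univ {i, j}), Finset.sum_pair hne]
  intro l _ hl
  simp only [Finset.mem_insert, Finset.mem_singleton, not_or] at hl
  rcases lt_or_gt_of_ne hl.1 with h | h
  · exact h1 l h
  · rcases lt_or_gt_of_ne hl.2 with h' | h'
    · rw [Fin.lt_def] at h h'
      omega
    · exact h2 l h'

theorem sum_three (f : Fin n → ℤ) (i k j : Fin n) (hik : (k : ℕ) = i + 1) (hkj : (j : ℕ) = k + 1)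
    (h1 : ∀ l, l < i → f l = 0) (h2 : ∀ l, j < l → f l = 0) :
    ∑ l, f l = f i + (f k + f j) := by
  have hne1 : i ∉ ({k, j} : Finset (Fin n)) := by
    simp only [Finset.mem_insert, Finset.mem_singleton, not_or]
    constructor
    · intro h
      rw [h] at hik
      omega
    · intro h
      rw [h] at hik
      omega
  have hne2 : k ≠ j := by
    intro h
    rw [h] at hkj
    omega
  rw [← Finset.sum_subset (Finset.subset_univ {i, k, j}), Finset.sum_insert hne1,
    Finset.sum_pair hne2]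
  intro l _ hl
  simp only [Finset.mem_insert, Finset.mem_singleton, not_or] at hl
  rcases lt_or_gt_of_ne hl.1 with h | h
  · exact h1 l h
  · rcases lt_or_gt_of_ne hl.2.2 with h' | h'
    · have h3 : (l : ℕ) ≠ k := fun he => hl.2.1 (Fin.ext he)
      rw [Fin.lt_def] at h h'
      omega
    · exact h2 l h'

theorem ent_mul_two (u v : UT n) (i j : Fin n) (hij : (j : ℕ) = i + 1) :
    ent (u * v) i j = ent v i j + ent u i j := by
  rw [ent_mul, sum_two _ i j hij, ent_diag, ent_diag, one_mul, mul_one]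
  · intro l hl
    rw [ent_low u hl, zero_mul]
  · intro l hl
    rw [ent_low v hl, mul_zero]

theorem ent_mul_three (u v : UT n) (i k j : Fin n) (hik : (k : ℕ) = i + 1)
    (hkj : (j : ℕ) = k + 1) :
    ent (u * v) i j = ent v i j + (ent u i k * ent v k j + ent u i j) := by
  rw [ent_mul, sum_three _ i k j hik hkj, ent_diag, ent_diag, one_mul, mul_one]
  · intro l hl
    rw [ent_low u hl, zero_mul]
  · intro l hl
    rw [ent_low v hl, mul_zero]

/-- If `x y = z y x`, the first superdiagonal of `z` vanishes. -/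
theorem ent_comm_two {x y z : UT n} (h : x * y = z * (y * x)) (i j : Fin n)
    (hij : (j : ℕ) = i + 1) : ent z i j = 0 := by
  have h1 := congrArg (fun w => ent w i j) h
  simp only [ent_mul_two _ _ i j hij] at h1
  omega

/-- If `x y = z y x`, the second superdiagonal of `z` is an alternating form in the first
superdiagonals of `x` and `y`. -/
theorem ent_comm_three {x y z : UT n} (h : x * y = z * (y * x)) (i k j : Fin n)
    (hik : (k : ℕ) = i + 1) (hkj : (j : ℕ) = k + 1) :
    ent z i j = ent x i k * ent y k j - ent y i k * ent x k j := by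
  have h0 := ent_comm_two h i k hik
  have h1 := congrArg (fun w => ent w i j) h
  simp only [ent_mul_three _ _ i k j hik hkj, h0, zero_mul] at h1
  linarith

/-- A central element that is a commutator of two commuting pairs has vanishing second
superdiagonal. -/
theorem ent_central {x₁ y₁ x₂ y₂ z : UT n} (h1 : x₁ * y₁ = z * (y₁ * x₁))
    (h2 : x₂ * y₂ = z * (y₂ * x₂)) (h3 : x₁ * x₂ = x₂ * x₁) (h4 : x₁ * y₂ = y₂ * x₁)
    (h5 : y₁ * x₂ = x₂ * y₁) (h6 : y₁ * y₂ = y₂ * y₁) (i j : Fin n) (hij : i < j)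
    (hj : (j : ℕ) < i + 3) : ent z i j = 0 := by
  have hlt : (i : ℕ) < j := hij
  rcases Nat.lt_or_ge (j : ℕ) (i + 2) with h | h
  · exact ent_comm_two h1 i j (by omega)
  · let k : Fin n := ⟨i + 1, by omega⟩
    have hik : (k : ℕ) = i + 1 := rfl
    have hkj : (j : ℕ) = k + 1 := by
      show (j : ℕ) = i + 1 + 1
      omega
    have e0 : ∀ {x y : UT n}, x * y = y * x →
        ent x i k * ent y k j - ent y i k * ent x k j = 0 := by
      intro x y hxy
      have := ent_comm_three (x := x) (y := y) (z := 1) (by rw [one_mul]; exact hxy) i k j hik hkj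
      rw [← this, ent_one, if_neg hij.ne]
    have e1 := ent_comm_three h1 i k j hik hkj
    have e2 := ent_comm_three h2 i k j hik hkj
    have e3 := e0 h3
    have e4 := e0 h4
    have e5 := e0 h5
    have e6 := e0 h6
    have e7 : ent z i j * ent z i j = 0 := by
      calc ent z i j * ent z i j
          = (ent x₁ i k * ent y₁ k j - ent y₁ i k * ent x₁ k j) *
            (ent x₂ i k * ent y₂ k j - ent y₂ i k * ent x₂ k j) := by rw [← e1, ← e2]
        _ = (ent x₁ i k * ent x₂ k j - ent x₂ i k * ent x₁ k j) *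
            (ent y₁ i k * ent y₂ k j - ent y₂ i k * ent y₁ k j) -
            (ent x₁ i k * ent y₂ k j - ent y₂ i k * ent x₁ k j) *
            (ent y₁ i k * ent x₂ k j - ent x₂ i k * ent y₁ k j) := by ring
        _ = 0 := by rw [e3, e4]; ring
    exact mul_self_eq_zero.1 e7

end Comm

/-! ## The Heisenberg group -/

/-- The 5-dimensional integer Heisenberg group. -/
@[ext] structure H5 where
  a₁ : ℤ
  a₂ : ℤ
  b₁ : ℤ
  b₂ : ℤ
  c : ℤ

namespace H5

instance : Mul H5 :=
  ⟨fun g h => ⟨g.a₁ + h.a₁, g.a₂ + h.a₂, g.b₁ + h.b₁, g.b₂ + h.b₂,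
    g.c + h.c + g.a₁ * h.b₁ + g.a₂ * h.b₂⟩⟩

instance : One H5 := ⟨⟨0, 0, 0, 0, 0⟩⟩

instance : Inv H5 := ⟨fun g => ⟨-g.a₁, -g.a₂, -g.b₁, -g.b₂, -g.c + g.a₁ * g.b₁ + g.a₂ * g.b₂⟩⟩

@[simp] theorem mul_a₁ (g h : H5) : (g * h).a₁ = g.a₁ + h.a₁ := rfl
@[simp] theorem mul_a₂ (g h : H5) : (g * h).a₂ = g.a₂ + h.a₂ := rfl
@[simp] theorem mul_b₁ (g h : H5) : (g * h).b₁ = g.b₁ + h.b₁ := rfl
@[simp] theorem mul_b₂ (g h : H5) : (g * h).b₂ = g.b₂ + h.b₂ := rfl
@[simp] theorem mul_c (g h : H5) : (g * h).c = g.c + h.c + g.a₁ * h.b₁ + g.a₂ * h.b₂ := rfl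
@[simp] theorem one_a₁ : (1 : H5).a₁ = 0 := rfl
@[simp] theorem one_a₂ : (1 : H5).a₂ = 0 := rfl
@[simp] theorem one_b₁ : (1 : H5).b₁ = 0 := rfl
@[simp] theorem one_b₂ : (1 : H5).b₂ = 0 := rfl
@[simp] theorem one_c : (1 : H5).c = 0 := rfl
@[simp] theorem inv_a₁ (g : H5) : (g⁻¹).a₁ = -g.a₁ := rfl
@[simp] theorem inv_a₂ (g : H5) : (g⁻¹).a₂ = -g.a₂ := rfl
@[simp] theorem inv_b₁ (g : H5) : (g⁻¹).b₁ = -g.b₁ := rfl
@[simp] theorem inv_b₂ (g : H5) : (g⁻¹).b₂ = -g.b₂ := rfl
@[simp] theorem inv_c (g : H5) : (g⁻¹).c = -g.c + g.a₁ * g.b₁ + g.a₂ * g.b₂ := rfl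

instance : Group H5 := Group.ofLeftAxioms
  (fun g h k => by ext <;> simp <;> ring)
  (fun g => by ext <;> simp)
  (fun g => by ext <;> simp; ring)

/-- The abelianization map. -/
def ab : H5 →* Multiplicative (ℤ × ℤ × ℤ × ℤ) where
  toFun g := Multiplicative.ofAdd (g.a₁, g.a₂, g.b₁, g.b₂)
  map_one' := rfl
  map_mul' _ _ := rfl

theorem mem_ker_ab {g : H5} (h : ab g = 1) : g.a₁ = 0 ∧ g.a₂ = 0 ∧ g.b₁ = 0 ∧ g.b₂ = 0 := by
  have h1 : (g.a₁, g.a₂, g.b₁, g.b₂) = ((0, 0, 0, 0) : ℤ × ℤ × ℤ × ℤ) := h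
  simpa [Prod.ext_iff] using h1

theorem isNilpotent : Group.IsNilpotent H5 := by
  refine Subgroup.isNilpotent_of_ker_le_center ab ?_
  intro g hg
  obtain ⟨h1, h2, h3, h4⟩ := mem_ker_ab hg
  rw [Subgroup.mem_center_iff]
  intro k
  ext <;> simp [h1, h2, h3, h4]
  ring

theorem pow_of_zero {g : H5} (h1 : g.a₁ = 0) (h2 : g.a₂ = 0) (h3 : g.b₁ = 0) (h4 : g.b₂ = 0)
    (k : ℕ) : g ^ k = ⟨0, 0, 0, 0, k * g.c⟩ := by
  induction k with
  | zero => rw [pow_zero]; ext <;> simp
  | succ k ih =>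
    rw [pow_succ, ih]
    ext <;> simp [h1, h2, h3, h4]
    ring

theorem torsionFree (g : H5) (hg : g ≠ 1) (k : ℕ) (hk : 0 < k) : g ^ k ≠ 1 := by
  intro h
  apply hg
  have h1 : (ab g) ^ k = 1 := by rw [← map_pow, h, map_one]
  have h2 : ab g = 1 := by
    have h3 : k • (g.a₁, g.a₂, g.b₁, g.b₂) = ((0, 0, 0, 0) : ℤ × ℤ × ℤ × ℤ) := h1
    have hk' : (k : ℤ) ≠ 0 := by exact_mod_cast hk.ne'
    simp [Prod.ext_iff, hk.ne'] at h3
    show (g.a₁, g.a₂, g.b₁, g.b₂) = ((0, 0, 0, 0) : ℤ × ℤ × ℤ × ℤ)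
    simp [h3]
  obtain ⟨e1, e2, e3, e4⟩ := mem_ker_ab h2
  have h5 := pow_of_zero e1 e2 e3 e4 k
  rw [h] at h5
  have h6 : (0 : ℤ) = k * g.c := congrArg H5.c h5
  have h7 : g.c = 0 := by
    rcases mul_eq_zero.1 h6.symm with h | h
    · have : (k : ℤ) ≠ 0 := by exact_mod_cast hk.ne'
      exact absurd h this
    · exact h
  ext <;> simp [e1, e2, e3, e4, h7]

def x₁ : H5 := ⟨1, 0, 0, 0, 0⟩
def x₂ : H5 := ⟨0, 1, 0, 0, 0⟩
def y₁ : H5 := ⟨0, 0, 1, 0, 0⟩
def y₂ : H5 := ⟨0, 0, 0, 1, 0⟩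
def z : H5 := ⟨0, 0, 0, 0, 1⟩

theorem x₁_pow (k : ℤ) : x₁ ^ k = ⟨k, 0, 0, 0, 0⟩ := by
  have h : ∀ m : ℕ, x₁ ^ m = ⟨m, 0, 0, 0, 0⟩ := by
    intro m
    induction m with
    | zero => rw [pow_zero]; ext <;> simp
    | succ m ih => rw [pow_succ, ih]; ext <;> simp [x₁]
  obtain ⟨m, rfl | rfl⟩ := k.eq_nat_or_neg
  · rw [zpow_natCast, h]
  · rw [zpow_neg, zpow_natCast, h]; ext <;> simp

theorem x₂_pow (k : ℤ) : x₂ ^ k = ⟨0, k, 0, 0, 0⟩ := by
  have h : ∀ m : ℕ, x₂ ^ m = ⟨0, m, 0, 0, 0⟩ := by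
    intro m
    induction m with
    | zero => rw [pow_zero]; ext <;> simp
    | succ m ih => rw [pow_succ, ih]; ext <;> simp [x₂]
  obtain ⟨m, rfl | rfl⟩ := k.eq_nat_or_neg
  · rw [zpow_natCast, h]
  · rw [zpow_neg, zpow_natCast, h]; ext <;> simp

theorem y₁_pow (k : ℤ) : y₁ ^ k = ⟨0, 0, k, 0, 0⟩ := by
  have h : ∀ m : ℕ, y₁ ^ m = ⟨0, 0, m, 0, 0⟩ := by
    intro m
    induction m with
    | zero => rw [pow_zero]; ext <;> simp
    | succ m ih => rw [pow_succ, ih]; ext <;> simp [y₁]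
  obtain ⟨m, rfl | rfl⟩ := k.eq_nat_or_neg
  · rw [zpow_natCast, h]
  · rw [zpow_neg, zpow_natCast, h]; ext <;> simp

theorem y₂_pow (k : ℤ) : y₂ ^ k = ⟨0, 0, 0, k, 0⟩ := by
  have h : ∀ m : ℕ, y₂ ^ m = ⟨0, 0, 0, m, 0⟩ := by
    intro m
    induction m with
    | zero => rw [pow_zero]; ext <;> simp
    | succ m ih => rw [pow_succ, ih]; ext <;> simp [y₂]
  obtain ⟨m, rfl | rfl⟩ := k.eq_nat_or_neg
  · rw [zpow_natCast, h]
  · rw [zpow_neg, zpow_natCast, h]; ext <;> simp

theorem z_pow (k : ℕ) : z ^ k = ⟨0, 0, 0, 0, k⟩ := by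
  rw [pow_of_zero rfl rfl rfl rfl]
  ext <;> simp [z]

theorem z_zpow (k : ℤ) : z ^ k = ⟨0, 0, 0, 0, k⟩ := by
  obtain ⟨m, rfl | rfl⟩ := k.eq_nat_or_neg
  · rw [zpow_natCast, z_pow]
  · rw [zpow_neg, zpow_natCast, z_pow]; ext <;> simp

theorem fg : Group.FG H5 := by
  rw [Group.fg_iff]
  refine ⟨{x₁, x₂, y₁, y₂, z}, ?_, by simp⟩
  rw [eq_top_iff]
  rintro g -
  have h : g = y₁ ^ g.b₁ * y₂ ^ g.b₂ * x₁ ^ g.a₁ * x₂ ^ g.a₂ * z ^ g.c := by
    rw [x₁_pow, x₂_pow, y₁_pow, y₂_pow, z_zpow]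
    ext <;> simp
  rw [h]
  have h1 : x₁ ∈ Subgroup.closure {x₁, x₂, y₁, y₂, z} := Subgroup.subset_closure (by simp)
  have h2 : x₂ ∈ Subgroup.closure {x₁, x₂, y₁, y₂, z} := Subgroup.subset_closure (by simp)
  have h3 : y₁ ∈ Subgroup.closure {x₁, x₂, y₁, y₂, z} := Subgroup.subset_closure (by simp)
  have h4 : y₂ ∈ Subgroup.closure {x₁, x₂, y₁, y₂, z} := Subgroup.subset_closure (by simp)
  have h5 : z ∈ Subgroup.closure {x₁, x₂, y₁, y₂, z} := Subgroup.subset_closure (by simp)
  exact Subgroup.mul_mem _ (Subgroup.mul_mem _ (Subgroup.mul_mem _ (Subgroup.mul_mem _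
    (Subgroup.zpow_mem _ h3 _) (Subgroup.zpow_mem _ h4 _)) (Subgroup.zpow_mem _ h1 _))
    (Subgroup.zpow_mem _ h2 _)) (Subgroup.zpow_mem _ h5 _)

/-- The size of an element. -/
def size (g : H5) : ℕ :=
  g.a₁.natAbs + g.a₂.natAbs + g.b₁.natAbs + g.b₂.natAbs + g.c.natAbs

/-- Words of length `L` in elements of bounded size have central coordinate `O(L²)`. -/
theorem bound (D : ℤ) (w : List H5) (hw : ∀ s ∈ w, (size s : ℤ) ≤ D) :
    |w.prod.b₁| ≤ D * w.length ∧ |w.prod.b₂| ≤ D * w.length ∧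
      |w.prod.c| ≤ 2 * (D + 1) ^ 2 * (w.length : ℤ) ^ 2 := by
  induction w with
  | nil => simp
  | cons s w ih =>
    obtain ⟨h1, h2, h3⟩ := ih fun t ht => hw t (by simp [ht])
    have hs := hw s (by simp)
    unfold size at hs
    push_cast at hs
    have p1 := abs_nonneg s.a₁
    have p2 := abs_nonneg s.a₂
    have p3 := abs_nonneg s.b₁
    have p4 := abs_nonneg s.b₂
    have p5 := abs_nonneg s.c
    have hD : 0 ≤ D := by linarith
    have hL : (0 : ℤ) ≤ w.length := by positivity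
    rw [List.prod_cons, List.length_cons]
    push_cast
    refine ⟨?_, ?_, ?_⟩
    · rw [mul_b₁]
      have := abs_add_le s.b₁ w.prod.b₁
      linarith
    · rw [mul_b₂]
      have := abs_add_le s.b₂ w.prod.b₂
      linarith
    · rw [mul_c]
      have e1 := abs_add_le (s.c + w.prod.c + s.a₁ * w.prod.b₁) (s.a₂ * w.prod.b₂)
      have e2 := abs_add_le (s.c + w.prod.c) (s.a₁ * w.prod.b₁)
      have e3 := abs_add_le s.c w.prod.c
      have e4 : |s.a₁ * w.prod.b₁| ≤ D * (D * w.length) := by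
        rw [abs_mul]
        exact mul_le_mul (by linarith) h1 (abs_nonneg _) hD
      have e5 : |s.a₂ * w.prod.b₂| ≤ D * (D * w.length) := by
        rw [abs_mul]
        exact mul_le_mul (by linarith) h2 (abs_nonneg _) hD
      nlinarith [mul_nonneg hD hL, mul_nonneg hD hD, mul_nonneg (mul_nonneg hD hD) hL]

end H5

/-! ## The main theorem -/

theorem main (n : ℕ) (φ : H5 →* UT n) (hφ : Function.Injective φ) : ¬ IsUndistorted φ.range := by
  rintro ⟨S, T, hS, -, hSc, hTc, C, hC1, hC⟩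
  -- upper bound
  have e1 : H5.x₁ * H5.y₁ = H5.z * (H5.y₁ * H5.x₁) := by
    ext <;> simp [H5.x₁, H5.y₁, H5.z]
  have e2 : H5.x₂ * H5.y₂ = H5.z * (H5.y₂ * H5.x₂) := by
    ext <;> simp [H5.x₂, H5.y₂, H5.z]
  have e3 : H5.x₁ * H5.x₂ = H5.x₂ * H5.x₁ := by
    ext <;> simp [H5.x₁, H5.x₂]
  have e4 : H5.x₁ * H5.y₂ = H5.y₂ * H5.x₁ := by
    ext <;> simp [H5.x₁, H5.y₂]
  have e5 : H5.y₁ * H5.x₂ = H5.x₂ * H5.y₁ := by
    ext <;> simp [H5.y₁, H5.x₂]
  have e6 : H5.y₁ * H5.y₂ = H5.y₂ * H5.y₁ := by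
    ext <;> simp [H5.y₁, H5.y₂]
  have hz := ent_central (x₁ := φ H5.x₁) (y₁ := φ H5.y₁) (x₂ := φ H5.x₂) (y₂ := φ H5.y₂)
    (z := φ H5.z) (by simp only [← map_mul, e1]) (by simp only [← map_mul, e2])
    (by simp only [← map_mul, e3]) (by simp only [← map_mul, e4])
    (by simp only [← map_mul, e5]) (by simp only [← map_mul, e6])
  obtain ⟨K, hK⟩ := exists_upper hTc (φ H5.z) hz
  -- lower bound
  obtain ⟨D, hD⟩ : ∃ D : ℤ, ∀ s : H5, (φ s ∈ S ∨ (φ s)⁻¹ ∈ S) → (H5.size s : ℤ) ≤ D := by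
    have hfin : (φ ⁻¹' (S ∪ S⁻¹)).Finite := (hS.union hS.inv).preimage hφ.injOn
    obtain ⟨D, hD⟩ := (hfin.image H5.size).bddAbove
    refine ⟨D, fun s hs => ?_⟩
    have : H5.size s ≤ D := by
      refine hD ⟨s, ?_, rfl⟩
      rcases hs with h | h
      · exact Or.inl h
      · exact Or.inr (Set.mem_inv.2 h)
    exact_mod_cast this
  have hlow : ∀ k : ℕ, (k : ℤ) ≤ 2 * (D + 1) ^ 2 * (wordLen S (φ H5.z ^ k) : ℤ) ^ 2 := by
    intro k
    have hmem : φ H5.z ^ k ∈ Subgroup.closure S := by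
      rw [hSc]
      exact ⟨H5.z ^ k, by rw [map_pow]⟩
    obtain ⟨w, hw, hwp, hwl⟩ := exists_min_word hmem
    have hlift : ∀ s ∈ w, ∃ s' : H5, φ s' = s := by
      intro s hs
      have hSr : ∀ t ∈ S, t ∈ φ.range := fun t ht => by
        rw [← hSc]
        exact Subgroup.subset_closure ht
      rcases hw s hs with h | h
      · exact hSr s h
      · have := Subgroup.inv_mem _ (hSr _ h)
        rwa [inv_inv] at this
    obtain ⟨w', rfl⟩ : ∃ w' : List H5, w'.map φ = w := by
      clear hw hwp hwl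
      induction w with
      | nil => exact ⟨[], rfl⟩
      | cons s w ih =>
        obtain ⟨w', rfl⟩ := ih fun t ht => hlift t (by simp [ht])
        obtain ⟨s', rfl⟩ := hlift s (by simp)
        exact ⟨s' :: w', rfl⟩
    have hprod : w'.prod = H5.z ^ k := by
      apply hφ
      rw [map_list_prod, hwp, map_pow]
    have h1 := (H5.bound D w' (fun s hs => hD s (hw (φ s) (List.mem_map_of_mem hs)))).2.2
    rw [hprod, H5.z_pow] at h1
    rw [List.length_map] at hwl
    rw [hwl] at h1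
    have h2 : |((k : ℕ) : ℤ)| = k := abs_of_nonneg (by positivity)
    have h3 : |(k : ℤ)| ≤ 2 * (D + 1) ^ 2 * (wordLen S (φ H5.z ^ k) : ℤ) ^ 2 := h1
    rwa [h2] at h3
  -- contradiction
  set P : ℝ := 2 * ((D : ℝ) + 1) ^ 2 * (C * K + C) ^ 2 with hP
  obtain ⟨q, hq⟩ := exists_nat_gt (max P 1)
  have hqP : P < q := lt_of_le_of_lt (le_max_left _ _) hq
  have hq1 : (1 : ℝ) < q := lt_of_le_of_lt (le_max_right _ _) hq
  have hq1' : 1 ≤ q := by
    have : (1 : ℕ) < q := by exact_mod_cast hq1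
    omega
  have h1 := hC (φ H5.z ^ q ^ 3) ⟨H5.z ^ q ^ 3, by rw [map_pow]⟩
  have h2 : (wordLen T (φ H5.z ^ q ^ 3) : ℝ) ≤ K * q := by exact_mod_cast hK q hq1'
  have h3 : (wordLen S (φ H5.z ^ q ^ 3) : ℝ) ≤ (C * K + C) * q := by
    have h4 : C * (wordLen T (φ H5.z ^ q ^ 3) : ℝ) ≤ C * (K * q) :=
      mul_le_mul_of_nonneg_left h2 (by linarith)
    have h5 : C ≤ C * q := by nlinarith
    nlinarith
  have h4 : ((q ^ 3 : ℕ) : ℝ) ≤
      2 * ((D : ℝ) + 1) ^ 2 * (wordLen S (φ H5.z ^ q ^ 3) : ℝ) ^ 2 := by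
    exact_mod_cast hlow (q ^ 3)
  have h5 : (wordLen S (φ H5.z ^ q ^ 3) : ℝ) ^ 2 ≤ ((C * K + C) * q) ^ 2 :=
    pow_le_pow_left₀ (Nat.cast_nonneg _) h3 2
  have h6 : ((q : ℝ)) ^ 3 ≤ P * (q : ℝ) ^ 2 := by
    rw [hP]
    push_cast at h4
    nlinarith [mul_le_mul_of_nonneg_left h5 (by positivity : (0 : ℝ) ≤ 2 * ((D : ℝ) + 1) ^ 2)]
  nlinarith [mul_pos (show (0 : ℝ) < q by linarith) (show (0 : ℝ) < q by linarith)]

/-- There is a finitely generated torsion-free nilpotent group (the 5-dimensional integer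
Heisenberg group) whose image under every embedding in every `UT_n(ℤ)` is distorted. -/
theorem result : ∃ (G : Type) (_ : Group G), Group.FG G ∧ Group.IsNilpotent G ∧
    (∀ g : G, g ≠ 1 → ∀ k : ℕ, 0 < k → g ^ k ≠ 1) ∧
    ∀ (n : ℕ) (φ : G →* UT n), Function.Injective φ → ¬ IsUndistorted φ.range :=
  ⟨H5, inferInstance, H5.fg, H5.isNilpotent, H5.torsionFree, main⟩

end Pool.Agent.Results.MP_34ced1_al.Heisenberg
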